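import Pool.Agent.H29.MG.L2A

/-!
# MG project: L2, L3, chains with a singleton class
-/

set_option autoImplicit false
set_option linter.unusedSectionVars false

noncomputable section

open Classical Module
open scoped Matrix

namespace Pool.Agent.H29.MG

open Pool.Agent.H52.MG

/-- inner products are determined by distances -/
lemma dot_dsq (x a b : Vec) : (x - a) ⬝ᵥ (x - b) = (dsq x a + dsq x b - dsq a b) / 2 := by
  simp only [dsq, dot3, Pi.sub_apply]
  ring

/-- orthogonal matrices preserve distances -/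
lemma dsq_iso {L : Matrix (Fin 3) (Fin 3) ℝ} (hL : Orth L) (t a b : Vec) :
    dsq (L *ᵥ a + t) (L *ᵥ b + t) = dsq a b := by
  have h1 : (L *ᵥ a + t) - (L *ᵥ b + t) = L *ᵥ (a - b) := by
    rw [Matrix.mulVec_sub]
    abel
  unfold dsq
  rw [h1, Matrix.dotProduct_mulVec, Matrix.vecMul_mulVec, hL, Matrix.vecMul_one]

section
variable {V : Type} [Fintype V]

/-- the body of a singleton class of degree two -/
lemma mem_Bd_single {G : SimpleGraph V} {c : V → V} {s x x' y t : V}
    (hch : Chain G c s x x' y y t) (hY : ∀ v, c v = c y → v = y) {u : V} (hu : u ∈ Bd G c y) :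
    u = y ∨ u = x' ∨ u = t := by
  rcases hu with h | ⟨w, h1, h2⟩
  · exact Or.inl (hY u h)
  · have hw := hY w h2
    subst hw
    have hcu : c u ≠ c w := by
      intro h
      have := hY u h
      subst this
      exact G.loopless.1 _ h1
    rcases hch.oY w u rfl hcu h1.symm with h | h
    · exact Or.inr (Or.inr h.2)
    · exact Or.inr (Or.inl h.2)

/-- solving the equilibrium at an atom for one bar -/
lemma solve_bar (ω : V → ℝ) (f g : V → Vec) (t : V)
    (hf : ∑ w, ω w • f w = 0) (hg : ∑ w, ω w • g w = 0)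
    (h : ∀ w, w ≠ t → ω w ≠ 0 → f w = g w) (ht : ω t ≠ 0) : f t = g t := by
  have h1 : ∑ w, ω w • (f w - g w) = 0 := by
    simp only [smul_sub, Finset.sum_sub_distrib, hf, hg, sub_zero]
  rw [Finset.sum_eq_single t] at h1
  · exact sub_eq_zero.1 ((smul_eq_zero.1 h1).resolve_left ht)
  · intro w _ hw
    by_cases h0 : ω w = 0
    · rw [h0, zero_smul]
    · rw [h w hw h0, sub_self, smul_zero]
  · intro h
    exact absurd (Finset.mem_univ t) h

end

/-- L2 -/
theorem l2 (hL2A : T_L2A) (hUF : T_UF) (hRANK : T_RANK) : T_L2 := by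
  intro V _ G c p q s x y t hp hTt heq hch hX hY hst
  refine ⟨x, y, hch.xy, ?_⟩
  have hcx := Cgr_Bd heq x
  have hcy := Cgr_Bd heq y
  have hcs := Cgr_Bd heq s
  have hst' : s ≠ t := fun h => hst (by rw [h])
  have hxt : x ≠ t := fun h => hch.tx (by rw [h])
  have hxBx : x ∈ Bd G c x := mem_Bd_self G c x
  have hsBx : s ∈ Bd G c x := mem_Bd_of_adj hch.e1.symm
  have hyBx : y ∈ Bd G c x := mem_Bd_of_adj hch.e2.symm
  have hyBy : y ∈ Bd G c y := mem_Bd_self G c y
  have hxBy : x ∈ Bd G c y := mem_Bd_of_adj hch.e2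
  have htBy : t ∈ Bd G c y := mem_Bd_of_adj hch.e3.symm
  have hsBs : s ∈ Bd G c s := mem_Bd_self G c s
  have hxBs : x ∈ Bd G c s := mem_Bd_of_adj hch.e1
  have hmy : ∀ u ∈ Bd G c y, u = y ∨ u = x ∨ u = t := fun u hu => mem_Bd_single hch hY hu
  have hmx : ∀ u ∈ Bd G c x, u = x ∨ u = y ∨ u = s := fun u hu =>
    mem_Bd_single hch.rev hX hu
  have key : dsq (q s) (q t) = dsq (p s) (p t) := by
    by_cases hadj : (HP G c).Adj s t
    · exact heq s t hadj
    · obtain ⟨-, -, hU⟩ := hUF V G c p s x x y y t hp hTt hch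
      obtain ⟨ω, hω, hne⟩ := hL2A V G c p s x y t hp hTt hch hX hY hst hadj
        (fun h => (hU hst h).1)
      have hωq := (hRANK V (HP G c) p q hp heq).1 ω hω
      have h1 := hω.2.2 x
      have h2 := hωq.2.2 x
      have h1' : ∑ w, ω x w • ((p x - p w) ⬝ᵥ (p x - p s)) = 0 := by
        have := congrArg (fun z : Vec => z ⬝ᵥ (p x - p s)) h1
        simpa only [sum_dotProduct, smul_dotProduct, zero_dotProduct] using this
      have h2' : ∑ w, ω x w • ((q x - q w) ⬝ᵥ (q x - q s)) = 0 := by
        have := congrArg (fun z : Vec => z ⬝ᵥ (q x - q s)) h2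
        simpa only [sum_dotProduct, smul_dotProduct, zero_dotProduct] using this
      have hterm : ∀ w, w ≠ t → ω x w ≠ 0 →
          (p x - p w) ⬝ᵥ (p x - p s) = (q x - q w) ⬝ᵥ (q x - q s) := by
        intro w hwt hw0
        have hadjw : (HP G c).Adj x w := by
          by_contra h
          exact hw0 (hω.2.1 x w h)
        have hK : ∃ k, x ∈ Bd G c k ∧ w ∈ Bd G c k ∧ s ∈ Bd G c k := by
          obtain ⟨hxw, k, hk1, hk2⟩ := hadjw
          have hBx : c k = c x ∨ c k = c s ∨ c k = c y := by
            rcases hk1 with h | ⟨z, h1, h2⟩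
            · exact Or.inl h.symm
            · have hcz : c z ≠ c x := fun h => by
                have := hX z h
                subst this
                exact G.loopless.1 _ h1
              rcases hch.oX x z rfl hcz h1 with h | h
              · rw [← h2, h.2]
                exact Or.inr (Or.inl rfl)
              · rw [← h2, h.2]
                exact Or.inr (Or.inr rfl)
          rcases hBx with h | h | h
          · rw [Bd_congr h] at hk2
            exact ⟨x, hxBx, hk2, hsBx⟩
          · rw [Bd_congr h] at hk2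
            exact ⟨s, hxBs, hk2, hsBs⟩
          · rw [Bd_congr h] at hk2
            rcases hmy w hk2 with rfl | rfl | rfl
            · exact ⟨x, hxBx, hyBx, hsBx⟩
            · exact absurd rfl hxw
            · exact absurd rfl hwt
        obtain ⟨k, hk1, hk2, hk3⟩ := hK
        have hck := Cgr_Bd heq k
        rw [dot_dsq, dot_dsq, hck x hk1 w hk2, hck x hk1 s hk3, hck w hk2 s hk3]
      have hfin : (p x - p t) ⬝ᵥ (p x - p s) = (q x - q t) ⬝ᵥ (q x - q s) := by
        have h3 : ∑ w, ω x w • ((p x - p w) ⬝ᵥ (p x - p s) - (q x - q w) ⬝ᵥ (q x - q s)) = 0 := by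
          simp only [smul_sub, Finset.sum_sub_distrib, h1', h2', sub_zero]
        rw [Finset.sum_eq_single t] at h3
        · exact sub_eq_zero.1 ((smul_eq_zero.1 h3).resolve_left hne)
        · intro w _ hw
          by_cases h0 : ω x w = 0
          · rw [h0, zero_smul]
          · rw [hterm w hw h0, sub_self, smul_zero]
        · intro h
          exact absurd (Finset.mem_univ t) h
      rw [dot_dsq, dot_dsq, hcy x hxBy t htBy, hcx x hxBx s hsBx] at hfin
      rw [dsq_comm (q s), dsq_comm (p s)]
      linarith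
  intro u hu w hw
  rcases hu with hu | hu <;> rcases hw with hw | hw
  · exact hcx u hu w hw
  · rcases hmy w hw with rfl | rfl | rfl
    · exact hcx u hu _ hyBx
    · exact hcx u hu _ hxBx
    · rcases hmx u hu with rfl | rfl | rfl
      · exact hcy _ hxBy _ htBy
      · exact hcy _ hyBy _ htBy
      · exact key
  · rcases hmy u hu with rfl | rfl | rfl
    · exact hcx _ hyBx w hw
    · exact hcx _ hxBx w hw
    · rcases hmx w hw with rfl | rfl | rfl
      · exact hcy _ htBy _ hxBy
      · exact hcy _ htBy _ hyBy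
      · rw [dsq_comm, dsq_comm (p u)]
        exact key
  · exact hcy u hu w hw

/-- L3 -/
theorem l3 (hL3A : T_L3A) (hUF : T_UF) (hRANK : T_RANK) (hISO : T_ISO) : T_L3 := by
  intro V _ G c p q s x x' y t hp hTt heq hch hY hxx' hst
  refine ⟨x, y, hch.xy, ?_⟩
  have hx't : x' ≠ t := fun h => hch.tx (by rw [← h, hch.cx])
  have hx'Bx : x' ∈ Bd G c x := Or.inl hch.cx
  have hyBx : y ∈ Bd G c x := Or.inr ⟨x', hch.e2.symm, hch.cx⟩
  obtain ⟨-, -, hU⟩ := hUF V G c p s x x' y y t hp hTt hch
  obtain ⟨ω, hω, hne⟩ := hL3A V G c p s x x' y t hp hTt hch hY hxx' hst (fun h => (hU hst h).1)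
  have hωq := (hRANK V (HP G c) p q hp heq).1 ω hω
  obtain ⟨L, τ, hL, hLτ⟩ := hISO V (Bd G c x) p q (Cgr_Bd heq x)
  have hfin : L *ᵥ (p x' - p t) = q x' - q t := by
    apply solve_bar (ω x') (fun w => L *ᵥ (p x' - p w)) (fun w => q x' - q w) t ?_ (hωq.2.2 x') ?_
      hne
    · have := congrArg (fun z : Vec => L *ᵥ z) (hω.2.2 x')
      simpa only [Matrix.mulVec_sum, Matrix.mulVec_smul, Matrix.mulVec_zero] using this
    · intro w hwt hw0
      have hadjw : (HP G c).Adj x' w := by
        by_contra h
        exact hw0 (hω.2.1 x' w h)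
      have hw : w ∈ Bd G c x := by
        obtain ⟨hxw, k, hk1, hk2⟩ := hadjw
        have hBx : c k = c x ∨ c k = c y := by
          rcases hk1 with h | ⟨z, h1, h2⟩
          · exact Or.inl (by rw [← h, hch.cx])
          · by_cases hcz : c z = c x
            · exact Or.inl (by rw [← h2, hcz])
            · rcases hch.oX x' z hch.cx hcz h1 with h | h
              · exact absurd h.1.symm hxx'
              · rw [← h2, h.2]
                exact Or.inr rfl
        rcases hBx with h | h
        · rw [Bd_congr h] at hk2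
          exact hk2
        · rw [Bd_congr h] at hk2
          rcases mem_Bd_single hch hY hk2 with rfl | rfl | rfl
          · exact hyBx
          · exact hx'Bx
          · exact absurd rfl hwt
      show L *ᵥ (p x' - p w) = q x' - q w
      rw [hLτ x' hx'Bx, hLτ w hw, Matrix.mulVec_sub]
      abel
  have ht : q t = L *ᵥ p t + τ := by
    rw [hLτ x' hx'Bx, Matrix.mulVec_sub] at hfin
    have : L *ᵥ p x' - L *ᵥ p t = L *ᵥ p x' - (q t - τ) := by
      rw [hfin]
      abel
    have h2 := sub_right_injective this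
    rw [h2]
    abel
  have hall : ∀ u ∈ Bd G c x ∪ Bd G c y, q u = L *ᵥ p u + τ := by
    rintro u (hu | hu)
    · exact hLτ u hu
    · rcases mem_Bd_single hch hY hu with rfl | rfl | rfl
      · exact hLτ _ hyBx
      · exact hLτ _ hx'Bx
      · exact ht
  intro u hu w hw
  rw [hall u hu, hall w hw, dsq_iso hL]

end Pool.Agent.H29.MG
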