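import Pool.Agent.H29.MG.UF

/-!
# MG project: L2A, L3A, redundant bars in a chain
-/

set_option autoImplicit false
set_option linter.unusedSectionVars false

noncomputable section

open Classical Module
open scoped Matrix

namespace Pool.Agent.H29.MG

open Pool.Agent.H52.MG

section
variable {V : Type} [Fintype V]

/-- the screws of the bodies which are cliques -/
lemma exists_screws (hCLQ : T_CLQ) {G : SimpleGraph V} {c : V → V} {p : V → Vec} (hp : Gen p)
    (m : V → Vec) (Y : V → Prop)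
    (hcl : ∀ k, ¬ Y (c k) → ∀ u ∈ Bd G c k, ∀ w ∈ Bd G c k, (m u - m w) ⬝ᵥ (p u - p w) = 0) :
    ∃ S : V → Scr, (∀ u w, c u = c w → S u = S w) ∧
      ∀ k, ¬ Y (c k) → ∀ u ∈ Bd G c k, m u = ev (S k) (p u) := by
  have h : ∀ l : V, ∃ T : Scr, ∀ k, c k = l → ¬ Y l → ∀ u ∈ Bd G c k, m u = ev T (p u) := by
    intro l
    by_cases hl : ∃ k, c k = l ∧ ¬ Y l
    · obtain ⟨k, hk, hY⟩ := hl
      obtain ⟨T, hT⟩ := hCLQ V p hp (Bd G c k) m (hcl k (by rw [hk]; exact hY))
      refine ⟨T, fun k' hk' _ u hu => hT u ?_⟩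
      rw [Bd_congr (hk.trans hk'.symm)]
      exact hu
    · exact ⟨0, fun k hk hY => absurd ⟨k, hk, hY⟩ hl⟩
  choose T hT using h
  exact ⟨fun v => T (c v), fun u w huw => by simp only [huw], fun k hk u hu =>
    hT (c k) k rfl hk u hu⟩

/-- rigid motions preserve lengths -/
lemma ev_dot (S : Scr) (a b : Vec) : (ev S a - ev S b) ⬝ᵥ (a - b) = 0 := by
  rw [ev_sub_ev]
  simp only [dot3, cross_eq, Matrix.cons_val, Pi.sub_apply]
  ring

lemma kl_of_bar (S T : Scr) (a b : Vec) (h : (ev S a - ev T b) ⬝ᵥ (a - b) = 0) :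
    kl (S - T) (lin a b) = 0 := by
  rw [kl_sub, kl_lin S a b, kl_lin' T a b]
  simp only [dot3, Pi.sub_apply] at h ⊢
  linarith

end

/-- L2A -/
theorem l2a (hCLQ : T_CLQ) (hLA1 : T_LA1) (hGS : T_GS) (hUF : T_UF) (hRED : T_RED) : T_L2A := by
  intro V _ G c p s x y t hp hTt hch hX hY hst hnadj hU
  obtain ⟨hU2, hUc, -⟩ := hUF V G c p s x x y y t hp hTt hch
  have hxs : x ≠ s := fun h => hch.sx (by rw [h])
  have hys : y ≠ s := fun h => hch.sy (by rw [h])
  have hxt : x ≠ t := fun h => hch.tx (by rw [h])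
  have hyt : y ≠ t := fun h => hch.ty (by rw [h])
  have hxy : x ≠ y := fun h => hch.xy (by rw [h])
  have hst' : s ≠ t := fun h => hst (by rw [h])
  have hadjxt : (HP G c).Adj x t :=
    ⟨hxt, y, mem_Bd_of_adj hch.e2, mem_Bd_of_adj hch.e3.symm⟩
  apply hRED V (HP G c) p x t hadjxt
  intro m hm
  -- neighbours of `x`
  have hNx : ∀ w, G.Adj x w → w = s ∨ w = y := by
    intro w hw
    have hcw : c w ≠ c x := fun h => by
      have := hX w h
      subst this
      exact G.loopless.1 _ hw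
    rcases hch.oX x w rfl hcw hw with h | h
    · exact Or.inl h.2
    · exact Or.inr h.2
  have hBx : ∀ k, x ∈ Bd G c k → c k = c x ∨ c k = c s ∨ c k = c y := by
    intro k hk
    rcases hk with h | ⟨w, h1, h2⟩
    · exact Or.inl h.symm
    · rcases hNx w h1 with rfl | rfl
      · exact Or.inr (Or.inl h2.symm)
      · exact Or.inr (Or.inr h2.symm)
  have hnot : ∀ k, ¬ (c k = c y) → ¬ (x ∈ Bd G c k ∧ t ∈ Bd G c k) := by
    rintro k hk ⟨h1, h2⟩
    rcases hBx k h1 with h | h | h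
    · rw [Bd_congr h] at h2
      rcases h2 with h2 | ⟨w, h2, h3⟩
      · exact hch.tx h2
      · have := hX w h3
        subst this
        rcases hNx t h2.symm with h4 | h4
        · exact hst' h4.symm
        · exact hyt h4.symm
    · rw [Bd_congr h] at h2
      exact hnadj ⟨hst', s, mem_Bd_self G c s, h2⟩
    · exact hk h
  have hcl : ∀ k, ¬ (c k = c y) → ∀ u ∈ Bd G c k, ∀ w ∈ Bd G c k,
      (m u - m w) ⬝ᵥ (p u - p w) = 0 := by
    intro k hk u hu w hw
    by_cases huw : u = w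
    · subst huw
      simp
    · apply hm u w
      refine ⟨⟨huw, k, hu, hw⟩, ?_, ?_⟩
      · rintro ⟨rfl, rfl⟩
        exact hnot k hk ⟨hu, hw⟩
      · rintro ⟨rfl, rfl⟩
        exact hnot k hk ⟨hw, hu⟩
  obtain ⟨S, hS1, hS2⟩ := exists_screws hCLQ hp m (fun l => l = c y) hcl
  have hSM : S ∈ Mot (GRc G c x y) c p := by
    rw [mem_Mot]
    refine ⟨hS1, ?_⟩
    intro u w h
    have hu : ¬ (c u = c x ∨ c u = c y) := h.2.1
    have hw : ¬ (c w = c x ∨ c w = c y) := h.2.2
    rw [← hS2 u (fun h => hu (Or.inr h)) u (mem_Bd_self G c u),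
      ← hS2 w (fun h => hw (Or.inr h)) u (mem_Bd_of_adj h.1)]
  -- values
  have hms : m s = ev (S s) (p s) := hS2 s (fun h => hch.sy h) s (mem_Bd_self G c s)
  have hmx : m x = ev (S s) (p x) := hS2 s (fun h => hch.sy h) x (mem_Bd_of_adj hch.e1)
  have hmy : m y = ev (S t) (p y) := hS2 t (fun h => hch.ty h) y (mem_Bd_of_adj hch.e3)
  have hmt : m t = ev (S t) (p t) := hS2 t (fun h => hch.ty h) t (mem_Bd_self G c t)
  have hyBx : y ∈ Bd G c x := mem_Bd_of_adj hch.e2.symm
  have hsBx : s ∈ Bd G c x := mem_Bd_of_adj hch.e1.symm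
  have hbar1 : kl (S s - S t) (lin (p x) (p y)) = 0 := by
    apply kl_of_bar
    rw [← hmx, ← hmy]
    exact hcl x (fun h => hch.xy h) x (mem_Bd_self G c x) y hyBx
  have hbar2 : kl (S s - S t) (lin (p s) (p y)) = 0 := by
    apply kl_of_bar
    rw [← hms, ← hmy]
    exact hcl x (fun h => hch.xy h) s hsBx y hyBx
  -- the system
  set E : Set (V × V) := {z | cRc c s x y z.1 = cRc c s x y z.2} with hE
  set A : Set (V × V × V) := {z | (GRc G c x y).Adj z.1 z.2.1 ∧ z.2.2 = z.1} with hA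
  set B : Set (V × V × V × V) := {(s, t, x, y), (s, t, s, y)} with hB
  obtain ⟨x₀, y₀, hLA⟩ := hLA1 (Urel (GRc G c x y) c p s t) (p s) hU2 hU
  set p₀ : V → Vec := fun v => if v = x then x₀ else if v = y then y₀ else p v with hp₀
  have hp₀x : p₀ x = x₀ := by simp [hp₀]
  have hp₀y : p₀ y = y₀ := by simp [hp₀, hxy.symm]
  have hp₀v : ∀ v, v ≠ x → v ≠ y → p₀ v = p v := by
    intro v h1 h2
    simp [hp₀, h1, h2]
  have hfr : finrank ℝ (Gsys E A B p) ≤ 6 := by
    refine (hGS V E A B p p₀ hp).trans ?_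
    apply finrank_le_six
    intro S' hS'
    have hM : S' ∈ Mot (GRc G c x y) (cRc c s x y) p := by
      rw [mem_Mot]
      refine ⟨fun u w h => hS'.1 (u, w) h, ?_⟩
      intro u w h
      have h1 := hS'.2.1 (u, w, u) ⟨h, rfl⟩
      have hu : ¬ (c u = c x ∨ c u = c y) := h.2.1
      simp only at h1
      rw [hp₀v u (fun h => hu (Or.inl (by rw [h]))) (fun h => hu (Or.inr (by rw [h])))] at h1
      exact h1
    have hM' := mot_cRc_le G c p s x y hM
    have hk1 := hS'.2.2 (s, t, x, y) (by simp [hB])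
    have hk2 := hS'.2.2 (s, t, s, y) (by simp [hB])
    simp only at hk1 hk2
    rw [hp₀x, hp₀y] at hk1
    rw [hp₀y, hp₀v s hxs.symm hys.symm] at hk2
    have h0 : S' s - S' t = 0 := hLA _ (mem_Urel.2 ⟨S', hM', rfl⟩) hk1 hk2
    have hall : ∀ v, S' v = S' s := by
      intro v
      by_cases hv : c v = c x ∨ c v = c y
      · apply hS'.1 (v, s)
        show cRc c s x y v = cRc c s x y s
        unfold cRc
        rw [if_pos hv]
        split_ifs <;> rfl
      · exact hUc S' hM' (sub_eq_zero.1 h0) v (fun h => hv (Or.inl h)) (fun h => hv (Or.inr h))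
    intro u w
    rw [hall u, hall w]
  have hmem : put c s x y S ∈ Gsys E A B p := by
    have h1 := put_mem (s := s) hSM
    rw [mem_Mot] at h1
    refine ⟨fun z hz => h1.1 z.1 z.2 hz, ?_, ?_⟩
    · rintro ⟨u, w, z⟩ ⟨h2, h3⟩
      simp only at h2 h3
      subst h3
      exact h1.2 _ _ h2
    · intro z hz
      have hs' : put c s x y S s = S s := put_of_not hch.sx hch.sy
      have ht' : put c s x y S t = S t := put_of_not hch.tx hch.ty
      rcases hz with rfl | rfl
      · show kl (put c s x y S s - put c s x y S t) (lin (p x) (p y)) = 0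
        rw [hs', ht']
        exact hbar1
      · show kl (put c s x y S s - put c s x y S t) (lin (p s) (p y)) = 0
        rw [hs', ht']
        exact hbar2
  have hconst : S s = S t := by
    have h1 := const_of_finrank (N := Gsys E A B p) (by
      intro T
      refine ⟨fun _ _ => rfl, fun _ _ => rfl, fun _ _ => ?_⟩
      simp) hfr hmem s t
    rwa [put_of_not hch.sx hch.sy, put_of_not hch.tx hch.ty] at h1
  rw [hmx, hmt, hconst]
  exact ev_dot _ _ _

/-- L3A -/
theorem l3a (hCLQ : T_CLQ) (hLA2 : T_LA2) (hGS : T_GS) (hUF : T_UF) (hRED : T_RED) : T_L3A := by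
  intro V _ G c p s x x' y t hp hTt hch hY hxx' hst hU
  obtain ⟨hU2, hUc, -⟩ := hUF V G c p s x x' y y t hp hTt hch
  have hxs : x ≠ s := fun h => hch.sx (by rw [h])
  have hys : y ≠ s := fun h => hch.sy (by rw [h])
  have hyt : y ≠ t := fun h => hch.ty (by rw [h])
  have hxy : x ≠ y := fun h => hch.xy (by rw [h])
  have hst' : s ≠ t := fun h => hst (by rw [h])
  have hx't : x' ≠ t := fun h => hch.tx (by rw [← h, hch.cx])
  have hadj : (HP G c).Adj x' t :=
    ⟨hx't, y, mem_Bd_of_adj hch.e2, mem_Bd_of_adj hch.e3.symm⟩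
  apply hRED V (HP G c) p x' t hadj
  intro m hm
  have hnot : ∀ k, ¬ (c k = c y) → ¬ (x' ∈ Bd G c k ∧ t ∈ Bd G c k) := by
    rintro k hk ⟨h1, h2⟩
    have hkx : c k = c x := by
      rcases h1 with h | ⟨w, h1, h3⟩
      · rw [← h, hch.cx]
      · by_cases hw : c w = c x
        · rw [← h3, hw]
        · exfalso
          rcases hch.oX x' w hch.cx hw h1 with h4 | h4
          · exact hxx' h4.1.symm
          · rw [h4.2] at h3
            exact hk h3.symm
    rw [Bd_congr hkx] at h2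
    rcases h2 with h2 | ⟨w, h2, h3⟩
    · exact hch.tx h2
    · rcases hch.oX w t h3 hch.tx h2.symm with h4 | h4
      · exact hst' h4.2.symm
      · exact hyt h4.2.symm
  have hcl : ∀ k, ¬ (c k = c y) → ∀ u ∈ Bd G c k, ∀ w ∈ Bd G c k,
      (m u - m w) ⬝ᵥ (p u - p w) = 0 := by
    intro k hk u hu w hw
    by_cases huw : u = w
    · subst huw
      simp
    · apply hm u w
      refine ⟨⟨huw, k, hu, hw⟩, ?_, ?_⟩
      · rintro ⟨rfl, rfl⟩
        exact hnot k hk ⟨hu, hw⟩
      · rintro ⟨rfl, rfl⟩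
        exact hnot k hk ⟨hw, hu⟩
  obtain ⟨S, hS1, hS2⟩ := exists_screws hCLQ hp m (fun l => l = c y) hcl
  have hxny : c x ≠ c y := hch.xy
  -- values
  have hm1 : ev (S x) (p x) = ev (S s) (p x) := by
    rw [← hS2 x hxny x (mem_Bd_self G c x), ← hS2 s hch.sy x (mem_Bd_of_adj hch.e1)]
  have hm2 : ev (S x) (p s) = ev (S s) (p s) := by
    rw [← hS2 x hxny s (mem_Bd_of_adj hch.e1.symm), ← hS2 s hch.sy s (mem_Bd_self G c s)]
  have hyBx : y ∈ Bd G c x := Or.inr ⟨x', hch.e2.symm, hch.cx⟩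
  have hm3 : ev (S x) (p y) = ev (S t) (p y) := by
    rw [← hS2 x hxny y hyBx, ← hS2 t hch.ty y (mem_Bd_of_adj hch.e3)]
  have hmx' : m x' = ev (S x) (p x') := hS2 x hxny x' (Or.inl hch.cx)
  have hmt : m t = ev (S t) (p t) := hS2 t hch.ty t (mem_Bd_self G c t)
  -- the system
  set c2 : V → V := fun v => if c v = c y then c s else c v with hc2
  set E : Set (V × V) := {z | c2 z.1 = c2 z.2} with hE
  set A : Set (V × V × V) := {z | ((GRc G c x y).Adj z.1 z.2.1 ∧ z.2.2 = z.1) ∨
    z = (x, s, x) ∨ z = (x, s, s) ∨ z = (x, t, y)} with hA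
  set B : Set (V × V × V × V) := ∅ with hB
  obtain ⟨x₀, z₀, hx₀, hLA⟩ := hLA2 (Urel (GRc G c x y) c p s t) (p s) hU2 hU
  set p₀ : V → Vec := fun v => if v = x then x₀ else if v = y then z₀ else p v with hp₀
  have hp₀x : p₀ x = x₀ := by simp [hp₀]
  have hp₀y : p₀ y = z₀ := by simp [hp₀, hxy.symm]
  have hp₀v : ∀ v, v ≠ x → v ≠ y → p₀ v = p v := by
    intro v h1 h2
    simp [hp₀, h1, h2]
  have hfr : finrank ℝ (Gsys E A B p) ≤ 6 := by
    refine (hGS V E A B p p₀ hp).trans ?_
    apply finrank_le_six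
    intro S' hS'
    have hM : S' ∈ Mot (GRc G c x y) c p := by
      rw [mem_Mot]
      refine ⟨fun u w h => hS'.1 (u, w) ?_, ?_⟩
      · show c2 u = c2 w
        simp only [hc2, h]
      intro u w h
      have h1 := hS'.2.1 (u, w, u) (Or.inl ⟨h, rfl⟩)
      have hu : ¬ (c u = c x ∨ c u = c y) := h.2.1
      simp only at h1
      rw [hp₀v u (fun h => hu (Or.inl (by rw [h]))) (fun h => hu (Or.inr (by rw [h])))] at h1
      exact h1
    have hk1 := hS'.2.1 (x, s, x) (Or.inr (Or.inl rfl))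
    have hk2 := hS'.2.1 (x, s, s) (Or.inr (Or.inr (Or.inl rfl)))
    have hk3 := hS'.2.1 (x, t, y) (Or.inr (Or.inr (Or.inr rfl)))
    simp only at hk1 hk2 hk3
    rw [hp₀x] at hk1
    rw [hp₀v s hxs.symm hys.symm] at hk2
    rw [hp₀y] at hk3
    obtain ⟨r, hr⟩ := scr_two (S' s - S' x) x₀ (p s) hx₀
      (by rw [ev_sub, hk1, sub_self]) (by rw [ev_sub, hk2, sub_self])
    have h1 : ev (S' s - S' t) z₀ = r • ev (lin x₀ (p s)) z₀ := by
      rw [← ev_smul, ← hr, ev_sub, ev_sub, hk3]
    obtain ⟨h2, h3⟩ := hLA _ (mem_Urel.2 ⟨S', hM, rfl⟩) r h1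
    have hsx : S' x = S' s := by
      rw [h3, zero_smul] at hr
      exact (sub_eq_zero.1 hr).symm
    have hall : ∀ v, S' v = S' s := by
      intro v
      by_cases hvx : c v = c x
      · rw [(mem_Mot.1 hM).1 v x hvx]
        exact hsx
      · by_cases hvy : c v = c y
        · apply hS'.1 (v, s)
          show c2 v = c2 s
          simp only [hc2]
          rw [if_pos hvy, if_neg hch.sy]
        · exact hUc S' hM (sub_eq_zero.1 h2) v hvx hvy
    intro u w
    rw [hall u, hall w]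
  set S'' : V → Scr := fun v => if c v = c y then S s else S v with hS''
  have hS''v : ∀ v, c v ≠ c y → S'' v = S v := by
    intro v hv
    simp only [hS'']
    rw [if_neg hv]
  have hmem : S'' ∈ Gsys E A B p := by
    refine ⟨?_, ?_, fun z hz => hz.elim⟩
    · intro z hz
      have hz' : c2 z.1 = c2 z.2 := hz
      simp only [hc2] at hz'
      simp only [hS'']
      by_cases h1 : c z.1 = c y <;> by_cases h2 : c z.2 = c y
      · rw [if_pos h1, if_pos h2]
      · rw [if_pos h1, if_neg h2] at hz' ⊢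
        exact hS1 _ _ hz'
      · rw [if_neg h1, if_pos h2] at hz' ⊢
        exact hS1 _ _ hz'
      · rw [if_neg h1, if_neg h2] at hz' ⊢
        exact hS1 _ _ hz'
    · rintro ⟨u, w, z⟩ (⟨h2, h3⟩ | h | h | h)
      · simp only at h2 h3
        subst h3
        have hu : ¬ (c z = c x ∨ c z = c y) := h2.2.1
        have hw : ¬ (c w = c x ∨ c w = c y) := h2.2.2
        show ev (S'' z) (p z) = ev (S'' w) (p z)
        rw [hS''v z (fun h => hu (Or.inr h)), hS''v w (fun h => hw (Or.inr h)),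
          ← hS2 z (fun h => hu (Or.inr h)) z (mem_Bd_self G c z),
          ← hS2 w (fun h => hw (Or.inr h)) z (mem_Bd_of_adj h2.1)]
      · simp only [Prod.mk.injEq] at h
        obtain ⟨rfl, rfl, rfl⟩ := h
        show ev (S'' _) (p _) = ev (S'' _) (p _)
        rw [hS''v _ hxny, hS''v _ hch.sy]
        exact hm1
      · simp only [Prod.mk.injEq] at h
        obtain ⟨rfl, rfl, rfl⟩ := h
        show ev (S'' _) (p _) = ev (S'' _) (p _)
        rw [hS''v _ hxny, hS''v _ hch.sy]
        exact hm2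
      · simp only [Prod.mk.injEq] at h
        obtain ⟨rfl, rfl, rfl⟩ := h
        show ev (S'' _) (p _) = ev (S'' _) (p _)
        rw [hS''v _ hxny, hS''v _ hch.ty]
        exact hm3
  have hconst : S x = S t := by
    have h1 := const_of_finrank (N := Gsys E A B p) (by
      intro T
      exact ⟨fun _ _ => rfl, fun _ _ => rfl, fun z hz => hz.elim⟩) hfr hmem x t
    rwa [hS''v _ hxny, hS''v _ hch.ty] at h1
  rw [hmx', hmt, hconst]
  exact ev_dot _ _ _

end Pool.Agent.H29.MG
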