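import Pool.Agent.H52.MG.Basic
import Pool.Agent.H52.MG.Targets

/-!
# MG project: UF, facts on the rest of a chain
-/

set_option autoImplicit false
set_option linter.unusedSectionVars false

noncomputable section

open Classical Module
open scoped Matrix

namespace Pool.Agent.H29.MG

open Pool.Agent.H52.MG

section
variable {V : Type} [Fintype V]

/-- put the screw of `s` on the atoms of `X` and `Y` -/
def put (c : V → V) (s x y : V) (S : V → Scr) : V → Scr :=
  fun v => if c v = c x ∨ c v = c y then S s else S v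

lemma put_mem {G : SimpleGraph V} {c : V → V} {p : V → Vec} {s x y : V} {S : V → Scr}
    (hS : S ∈ Mot (GRc G c x y) c p) : put c s x y S ∈ Mot (GRc G c x y) (cRc c s x y) p := by
  rw [mem_Mot] at hS ⊢
  refine ⟨?_, ?_⟩
  · intro u w h
    unfold cRc at h
    unfold put
    by_cases hu : c u = c x ∨ c u = c y <;> by_cases hw : c w = c x ∨ c w = c y
    · rw [if_pos hu, if_pos hw]
    · rw [if_pos hu, if_neg hw] at h ⊢
      exact hS.1 _ _ h
    · rw [if_neg hu, if_pos hw] at h ⊢
      exact hS.1 _ _ h
    · rw [if_neg hu, if_neg hw] at h ⊢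
      exact hS.1 _ _ h
  · intro u w h
    have hu : ¬ (c u = c x ∨ c u = c y) := h.2.1
    have hw : ¬ (c w = c x ∨ c w = c y) := h.2.2
    unfold put
    rw [if_neg hu, if_neg hw]
    exact hS.2 _ _ h

lemma mot_cRc_le (G : SimpleGraph V) (c : V → V) (p : V → Vec) (s x y : V) :
    Mot (GRc G c x y) (cRc c s x y) p ≤ Mot (GRc G c x y) c p := by
  intro S hS
  rw [mem_Mot] at hS ⊢
  refine ⟨fun u w h => hS.1 u w ?_, hS.2⟩
  unfold cRc
  rw [h]

lemma put_of_not {c : V → V} {s x y v : V} {S : V → Scr} (h1 : c v ≠ c x) (h2 : c v ≠ c y) :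
    put c s x y S v = S v := by
  unfold put
  rw [if_neg (by tauto)]

lemma urel_cRc (G : SimpleGraph V) (c : V → V) (p : V → Vec) (s x y t : V)
    (hsx : c s ≠ c x) (hsy : c s ≠ c y) (htx : c t ≠ c x) (hty : c t ≠ c y) :
    Urel (GRc G c x y) (cRc c s x y) p s t = Urel (GRc G c x y) c p s t := by
  apply le_antisymm
  · exact Submodule.map_mono (mot_cRc_le G c p s x y)
  · intro T hT
    rw [mem_Urel] at hT ⊢
    obtain ⟨S, hS, rfl⟩ := hT
    exact ⟨put c s x y S, put_mem hS, by rw [put_of_not hsx hsy, put_of_not htx hty]⟩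

lemma urel_swap (G : SimpleGraph V) (c : V → V) (p : V → Vec) (s t : V) :
    Urel G c p t s = Urel G c p s t := by
  have key : ∀ s t : V, Urel G c p t s ≤ Urel G c p s t := by
    intro s t T hT
    rw [mem_Urel] at hT ⊢
    obtain ⟨S, hS, rfl⟩ := hT
    refine ⟨-S, (Mot G c p).neg_mem hS, ?_⟩
    simp only [Pi.neg_apply]
    abel
  exact le_antisymm (key s t) (key t s)

/-- motions which do not move `s` and `t` relative to each other -/
lemma const_of_eq (hMT : T_MT) {G : SimpleGraph V} {c : V → V} {p : V → Vec} {s t : V}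
    (hp : Gen p) (h0 : ∀ d : V → V, Coarse c d → d s = d t → 0 ≤ s2 G d) {S : V → Scr}
    (hS : S ∈ Mot G c p) (hst : S s = S t) (u w : V) : S u = S w := by
  have hC : Cnd G (mrg c s t) 0 := by
    intro d hd
    have h1 : Coarse c d := by
      intro u w h
      apply hd
      unfold mrg
      rw [h]
    have h2 : d s = d t := by
      apply hd
      unfold mrg
      rw [if_pos rfl]
      split_ifs <;> rfl
    have := h0 d h1 h2
    simpa using this
  have h1 := hMT V G (mrg c s t) 0 p hp hC
  have hS' : S ∈ Mot G (mrg c s t) p := by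
    rw [mem_Mot] at hS ⊢
    refine ⟨?_, hS.2⟩
    intro u w h
    unfold mrg at h
    by_cases hu : c u = c t <;> by_cases hw : c w = c t
    · exact hS.1 _ _ (hu.trans hw.symm)
    · rw [if_pos hu, if_neg hw] at h
      rw [hS.1 u t hu, ← hst]
      exact hS.1 _ _ h
    · rw [if_neg hu, if_pos hw] at h
      rw [hS.1 w t hw, ← hst]
      exact hS.1 _ _ h
    · rw [if_neg hu, if_neg hw] at h
      exact hS.1 _ _ h
  exact Mot_const h1 hS' u w

lemma finrank_urel {G : SimpleGraph V} {c : V → V} {p : V → Vec} (s t : V) {k : ℕ}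
    (h : finrank ℝ (Mot G c p) ≤ 6 + k) : finrank ℝ (Urel G c p s t) ≤ k := by
  have hV : Nonempty V := ⟨s⟩
  set f := (dif s t).domRestrict (Mot G c p) with hf
  have h1 := LinearMap.finrank_range_add_finrank_ker f
  have h2 : LinearMap.range f = Urel G c p s t := by
    rw [hf, LinearMap.range_domRestrict]
    rfl
  have h3 : 6 ≤ finrank ℝ (LinearMap.ker f) := by
    let g : Scr →ₗ[ℝ] LinearMap.ker f := LinearMap.codRestrict (LinearMap.ker f)
      (LinearMap.codRestrict (Mot G c p) (constMap V) (fun T => const_mem_Mot G c p T)) (by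
        intro T
        rw [LinearMap.mem_ker]
        show T - T = 0
        exact sub_self T)
    have hg : Function.Injective g := by
      intro a b h
      have h4 : (g a : Mot G c p) = (g b : Mot G c p) := by rw [h]
      have h5 : ((g a : Mot G c p) : V → Scr) = ((g b : Mot G c p) : V → Scr) := by rw [h4]
      exact congrFun h5 s
    have h6 := LinearMap.finrank_le_finrank_of_injective hg
    rwa [finrank_scr] at h6
  rw [h2] at h1
  omega

end

/-- UF -/
theorem uf (hMT : T_MT) (hN1 : T_N1) (hR : T_RCHN) : T_UF := by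
  intro V _ G c p s x x' y y' t hp hTt hch
  obtain ⟨hC2, h0⟩ := (hR V G c s x x' y y' t hch).2 hTt
  have hC2' := hMT V _ _ 2 p hp hC2
  refine ⟨?_, ?_, ?_⟩
  · rw [← urel_cRc G c p s x y t hch.sx hch.sy hch.tx hch.ty]
    exact finrank_urel s t hC2'
  · intro S hS hst v hvx hvy
    have h1 := const_of_eq hMT hp h0 (put_mem (s := s) hS)
      (by rw [put_of_not hch.sx hch.sy, put_of_not hch.tx hch.ty]; exact hst) v s
    rwa [put_of_not hvx hvy, put_of_not hch.sx hch.sy] at h1
  · intro hst hfr
    have hs : cRc c s x y s = c s := by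
      unfold cRc
      split_ifs <;> rfl
    have ht : cRc c s x y t = c t := by
      unfold cRc
      rw [if_neg]
      rintro (h | h)
      · exact hch.tx h
      · exact hch.ty h
    have hne : cRc c s x y s ≠ cRc c s x y t := by
      rw [hs, ht]
      exact hst
    rw [← urel_cRc G c p s x y t hch.sx hch.sy hch.tx hch.ty] at hfr ⊢
    refine ⟨hN1 V _ _ s t p hp hne hC2 h0 hfr, ?_⟩
    have h1 := hN1 V _ _ t s p hp hne.symm hC2 (fun d hd h => h0 d hd h.symm)
      (by rw [urel_swap]; exact hfr)
    rwa [urel_swap] at h1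

end Pool.Agent.H29.MG
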